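import Pool.Agent.KDS.StmtsB

/-!
# KDS row CLM: Clifford relations
-/

set_option autoImplicit false

namespace Pool.Agent.KDS.H25

open Polynomial NumberField H58Q Pool.Agent.SZT Pool.Agent.KDT Pool.Agent.KDS

theorem eval_five {K : Type} [Field K] {f : K[X]} (hf : f.Monic) (h5 : f.natDegree = 5) (a : K) :
    f.eval a = f.coeff 0 + f.coeff 1 * a + f.coeff 2 * a ^ 2 + f.coeff 3 * a ^ 3 +
      f.coeff 4 * a ^ 4 + a ^ 5 := by
  have h : f.coeff 5 = 1 := by rw [← h5]; exact hf
  rw [eval_eq_sum_range, h5]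
  simp only [Finset.sum_range_succ, Finset.sum_range_zero, h]
  ring

theorem deriv_five {K : Type} [Field K] {f : K[X]} (hf : f.Monic) (h5 : f.natDegree = 5) (a : K) :
    (derivative f).eval a = fd f a := by
  have h : f.coeff 5 = 1 := by rw [← h5]; exact hf
  have hd : (derivative f).natDegree < 5 := by
    rw [← h5]
    exact natDegree_derivative_lt (by omega)
  rw [eval_eq_sum_range' hd]
  simp only [Finset.sum_range_succ, Finset.sum_range_zero, coeff_derivative, h, fd]
  push_cast
  ring

theorem clm : ClmStatement := by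
  intro K _ f a b u v c
  refine ⟨?_, ?_, ?_, ?_, fun hf h5 => deriv_five hf h5 a, ?_, ?_, ?_⟩
  · funext i
    fin_cases i <;> simp [MT, fd, mA, mB] <;> ring
  · intro hf h5 ha hb hab
    have ha' := ha
    have hb' := hb
    rw [IsRoot.def, eval_five hf h5] at ha' hb'
    obtain ⟨l, hl⟩ : ∃ l : K, l = 2 * (a ^ 4 + a ^ 3 * b + a ^ 2 * b ^ 2 + a * b ^ 3 + b ^ 4) +
        2 * f.coeff 4 * (a ^ 3 + a ^ 2 * b + a * b ^ 2 + b ^ 3) +
        2 * f.coeff 3 * (a ^ 2 + a * b + b ^ 2) + 2 * f.coeff 2 * (a + b) + 2 * f.coeff 1 :=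
      ⟨_, rfl⟩
    have h0 : (a - b) * l = 0 := by
      rw [hl]
      linear_combination 2 * ha' - 2 * hb'
    have hl0 : l = 0 := by
      rcases mul_eq_zero.1 h0 with h | h
      · exact absurd (sub_eq_zero.1 h) hab
      · exact h
    rw [hl] at hl0
    have e0 : MT f a (MT f b u) 0 = - MT f b (MT f a u) 0 := by
      simp only [MT, mA, mB, Matrix.cons_val_zero, Matrix.cons_val_one, Matrix.cons_val]
      linear_combination u 0 * hl0
    have e1 : MT f a (MT f b u) 1 = - MT f b (MT f a u) 1 := by
      simp only [MT, mA, mB, Matrix.cons_val_zero, Matrix.cons_val_one, Matrix.cons_val]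
      linear_combination u 1 * hl0
    have e2 : MT f a (MT f b u) 2 = - MT f b (MT f a u) 2 := by
      simp only [MT, mA, mB, Matrix.cons_val_zero, Matrix.cons_val_one, Matrix.cons_val]
      linear_combination u 2 * hl0
    have e3 : MT f a (MT f b u) 3 = - MT f b (MT f a u) 3 := by
      simp only [MT, mA, mB, Matrix.cons_val_zero, Matrix.cons_val_one, Matrix.cons_val]
      linear_combination u 3 * hl0
    funext i
    fin_cases i
    · exact e0
    · exact e1
    · exact e2
    · exact e3
  · simp only [XX, MT, mA, mB, fd, Matrix.cons_val_zero, Matrix.cons_val_one, Matrix.cons_val]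
    ring
  · funext i
    fin_cases i <;> simp [MT, mA, mB] <;> ring
  · simp only [QQ, XX, MT, mA, mB, Matrix.cons_val_zero, Matrix.cons_val_one, Matrix.cons_val]
    ring
  · simp only [XX, Pi.smul_apply, smul_eq_mul]
    ring
  · simp only [XX, Pi.smul_apply, smul_eq_mul]
    ring

end Pool.Agent.KDS.H25
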